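import Pool.Agent.K3h63.IQ.Stm

/-!
# The transfer of endomorphisms of `Z ⊗ M` to `Z ⊗ P`, `P = (M ⊗ N)^G`
-/

set_option autoImplicit false
set_option linter.unusedSectionVars false

open CategoryTheory Limits MonoidalCategory
open Pool.Agent.Y112.SR Pool.Agent.Y112.KD Pool.Agent.Y112.SC Pool.Agent.R905
open Pool.Agent.Y116.MT (tr)
open Pool.Agent.K3h63.IQ

namespace Pool.Agent.K3h96.IQ

universe v u w

section

variable {C : Type u} [Category.{v} C] [Preadditive C] [Linear ℚ C]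
  [MonoidalCategory C] [MonoidalPreadditive C] [MonoidalLinear ℚ C] [SymmetricCategory C]

/-- `f ▷ N` on `Z ⊗ (M ⊗ N)`. -/
def FF (N : C) {Z M : C} (f : Z ⊗ M ⟶ Z ⊗ M) : Z ⊗ (M ⊗ N) ⟶ Z ⊗ (M ⊗ N) :=
  (α_ Z M N).inv ≫ (f ▷ N) ≫ (α_ Z M N).hom

lemma tw_eq {M N P : C} (j : P ⟶ M ⊗ N) (q : M ⊗ N ⟶ P) {Z : C} (f : Z ⊗ M ⟶ Z ⊗ M) :
    tw j q f = (Z ◁ j) ≫ FF N f ≫ (Z ◁ q) := by
  simp only [tw, FF, Category.assoc]

lemma FF_comp (N : C) {Z M : C} (f g : Z ⊗ M ⟶ Z ⊗ M) : FF N (f ≫ g) = FF N f ≫ FF N g := by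
  simp [FF]

lemma FF_whisker (N : C) {Z M : C} (a : M ⟶ M) : FF N (Z ◁ a) = Z ◁ (a ▷ N) := by
  simp [FF]

lemma FF_comm_right {N Z M : C} (f : Z ⊗ M ⟶ Z ⊗ M) (t : N ⟶ N) :
    FF N f ≫ Z ◁ (M ◁ t) = Z ◁ (M ◁ t) ≫ FF N f := by
  simp only [FF, Category.assoc]
  rw [← associator_naturality_right, ← whisker_exchange_assoc,
    ← associator_inv_naturality_right_assoc]

lemma FF_comm_tensor {N Z M : C} (f : Z ⊗ M ⟶ Z ⊗ M) (a : M ⟶ M) (t : N ⟶ N)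
    (h : f ≫ Z ◁ a = Z ◁ a ≫ f) :
    FF N f ≫ Z ◁ (a ⊗ₘ t) = Z ◁ (a ⊗ₘ t) ≫ FF N f := by
  rw [MonoidalCategory.tensorHom_def, MonoidalCategory.whiskerLeft_comp, ← FF_whisker,
    ← Category.assoc, ← FF_comp, h, FF_comp, Category.assoc, FF_comm_right, Category.assoc]

lemma wl_sum {Z X Y : C} {G : Type} [Fintype G] (F : G → (X ⟶ Y)) :
    Z ◁ (∑ g, F g) = ∑ g, Z ◁ F g := by
  exact whiskerLeft_sum Z Finset.univ F

lemma wl_smul {W Z X Y : C} (f : W ⟶ Z ⊗ X) (c : ℚ) (a : X ⟶ Y) :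
    f ≫ Z ◁ (c • a) = c • (f ≫ Z ◁ a) := by
  rw [MonoidalLinear.whiskerLeft_smul, Linear.comp_smul]

lemma FF_comm_proj {G : Type} [Group G] [Fintype G] {M N P : C} {ρ : G →* End M} {τ : G →* End N}
    {j : P ⟶ M ⊗ N} {q : M ⊗ N ⟶ P} (hP : IsInv ρ τ j q) {Z : C} (f : Z ⊗ M ⟶ Z ⊗ M)
    (h : ∀ g, f ≫ Z ◁ ((ρ g : End M) : M ⟶ M) = Z ◁ ((ρ g : End M) : M ⟶ M) ≫ f) :
    FF N f ≫ Z ◁ (q ≫ j) = Z ◁ (q ≫ j) ≫ FF N f := by
  rw [hP.proj, MonoidalLinear.whiskerLeft_smul, Linear.comp_smul, Linear.smul_comp, wl_sum,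
    Preadditive.comp_sum, Preadditive.sum_comp]
  congr 1
  refine Finset.sum_congr rfl fun g _ => ?_
  exact FF_comm_tensor f _ _ (h g)

lemma tw_comp {G : Type} [Group G] [Fintype G] {M N P : C} {ρ : G →* End M} {τ : G →* End N}
    {j : P ⟶ M ⊗ N} {q : M ⊗ N ⟶ P} (hP : IsInv ρ τ j q) {Z : C} (f : Z ⊗ M ⟶ Z ⊗ M)
    (h : ∀ g, f ≫ Z ◁ ((ρ g : End M) : M ⟶ M) = Z ◁ ((ρ g : End M) : M ⟶ M) ≫ f)
    (f' : Z ⊗ M ⟶ Z ⊗ M) : tw j q (f' ≫ f) = tw j q f' ≫ tw j q f := by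
  have h1 := FF_comm_proj hP f h
  have h2 : (Z ◁ q) ≫ (Z ◁ j) ≫ FF N f ≫ (Z ◁ q) = FF N f ≫ (Z ◁ q) := by
    rw [← MonoidalCategory.whiskerLeft_comp_assoc, ← Category.assoc, ← h1, Category.assoc,
      ← MonoidalCategory.whiskerLeft_comp, Category.assoc, hP.one, Category.comp_id]
  rw [tw_eq, tw_eq, tw_eq, FF_comp]
  simp only [Category.assoc]
  rw [h2]

lemma tw_one {G : Type} [Group G] [Fintype G] {M N P : C} {ρ : G →* End M} {τ : G →* End N}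
    {j : P ⟶ M ⊗ N} {q : M ⊗ N ⟶ P} (hP : IsInv ρ τ j q) (Z : C) :
    tw j q (𝟙 (Z ⊗ M)) = 𝟙 _ := by
  rw [tw_eq]
  have : FF N (𝟙 (Z ⊗ M)) = 𝟙 _ := by simp [FF]
  rw [this, Category.id_comp, ← MonoidalCategory.whiskerLeft_comp, hP.one,
    MonoidalCategory.whiskerLeft_id]

lemma tw_nat {M N P : C} (j : P ⟶ M ⊗ N) (q : M ⊗ N ⟶ P) {Z : C} (a : Z ⟶ Z)
    (f : Z ⊗ M ⟶ Z ⊗ M) (h : f ≫ a ▷ M = a ▷ M ≫ f) :
    tw j q f ≫ a ▷ P = a ▷ P ≫ tw j q f := by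
  have h1 : FF N f ≫ a ▷ (M ⊗ N) = a ▷ (M ⊗ N) ≫ FF N f := by
    have e : a ▷ (M ⊗ N) = (α_ Z M N).inv ≫ (a ▷ M ▷ N) ≫ (α_ Z M N).hom := by simp
    rw [e]
    simp only [FF, Category.assoc, Iso.hom_inv_id_assoc]
    rw [← comp_whiskerRight_assoc, h, comp_whiskerRight_assoc]
  rw [tw_eq, Category.assoc, Category.assoc, whisker_exchange, reassoc_of% h1,
    ← whisker_exchange_assoc]

end

section

variable {C : Type u} [Category.{v} C] [Preadditive C] [Linear ℚ C]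
  [MonoidalCategory C] [MonoidalPreadditive C] [MonoidalLinear ℚ C] [SymmetricCategory C]
  {K : Type w} [Field K] (R : SuperRealisation C K)

lemma map_whisker_zero {Q X : C} (f : Q ⟶ Q) (h : R.H.map f = 0) : R.H.map (f ▷ X) = 0 := by
  rw [map_whiskerRight_eq, h, bx_zero_left]

lemma tw_map {M N P : C} (j : P ⟶ M ⊗ N) (q : M ⊗ N ⟶ P) {Z : C}
    (f : Z ⊗ M ⟶ Z ⊗ M) (h : R.H.map f = 0) : R.H.map (tw j q f) = 0 := by
  simp only [tw, Functor.map_comp, map_whisker_zero R f h, zero_comp, comp_zero]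

end

section

variable {C : Type u} [Category.{v} C] [Preadditive C] [Linear ℚ C]
  [MonoidalCategory C] [MonoidalPreadditive C] [MonoidalLinear ℚ C] [SymmetricCategory C]
  [RightRigidCategory C]

lemma tw_zero (hU : UnitQ C) {G : Type} [Group G] [Fintype G] {M N P : C} {ρ : G →* End M}
    {τ : G →* End N} {j : P ⟶ M ⊗ N} {q : M ⊗ N ⟶ P} (hP : IsInv ρ τ j q) {Z : C}
    (f : Z ⊗ M ⟶ Z ⊗ M)
    (h : ∀ g, f ≫ Z ◁ ((ρ g : End M) : M ⟶ M) = Z ◁ ((ρ g : End M) : M ⟶ M) ≫ f)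
    (h0 : tw j q f = 0) : f ≫ Z ◁ ((∑ g, trq hU N (τ g) • ρ g : End M) : M ⟶ M) = 0 := by
  have h1 := FF_comm_proj hP f h
  have hid : (q ≫ j) ≫ (q ≫ j) = q ≫ j := by
    rw [Category.assoc, ← Category.assoc j, hP.one, Category.id_comp]
  have h2 : FF N f ≫ Z ◁ (q ≫ j) = 0 := by
    have e : Z ◁ q ≫ tw j q f ≫ Z ◁ j = FF N f ≫ Z ◁ (q ≫ j) := by
      rw [tw_eq]
      simp only [Category.assoc]
      rw [← MonoidalCategory.whiskerLeft_comp, ← MonoidalCategory.whiskerLeft_comp_assoc,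
        ← Category.assoc, ← h1, Category.assoc, ← MonoidalCategory.whiskerLeft_comp, hid]
    rw [← e, h0, zero_comp, comp_zero]
  have hc : (Fintype.card G : ℚ) ≠ 0 := by exact_mod_cast Fintype.card_ne_zero
  have h3 : ∑ g : G, FF N f ≫ Z ◁ (((ρ g : End M) : M ⟶ M) ⊗ₘ ((τ g : End N) : N ⟶ N)) = 0 := by
    have e := h2
    rw [hP.proj, MonoidalLinear.whiskerLeft_smul, Linear.comp_smul, wl_sum,
      Preadditive.comp_sum] at e
    have e' := congrArg (fun z => (Fintype.card G : ℚ) • z) e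
    simpa only [smul_smul, mul_inv_cancel₀ hc, one_smul, smul_zero] using e'
  have h4 : ∑ g : G, ((f ≫ Z ◁ ((ρ g : End M) : M ⟶ M)) ⊗ₘ ((τ g : End N) : N ⟶ N)) = 0 := by
    have e : ∀ g : G, ((f ≫ Z ◁ ((ρ g : End M) : M ⟶ M)) ⊗ₘ ((τ g : End N) : N ⟶ N)) =
        (α_ Z M N).hom ≫ (FF N f ≫ Z ◁ (((ρ g : End M) : M ⟶ M) ⊗ₘ ((τ g : End N) : N ⟶ N))) ≫
          (α_ Z M N).inv := by
      intro g
      rw [MonoidalCategory.tensorHom_def, MonoidalCategory.tensorHom_def,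
        MonoidalCategory.whiskerLeft_comp, ← FF_whisker, FF, FF]
      simp only [Category.assoc, Iso.hom_inv_id_assoc, comp_whiskerRight]
      rw [associator_inv_naturality_right, Iso.hom_inv_id_assoc]
    simp only [e]
    rw [← Preadditive.comp_sum, ← Preadditive.sum_comp, h3, zero_comp, comp_zero]
  have h5 := congrArg (ptrL (Z ⊗ M) N) h4
  rw [map_sum, map_zero] at h5
  have h6 : ∀ g : G, ptrL (Z ⊗ M) N
      ((f ≫ Z ◁ ((ρ g : End M) : M ⟶ M)) ⊗ₘ ((τ g : End N) : N ⟶ N)) =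
      trq hU N (τ g) • (f ≫ Z ◁ ((ρ g : End M) : M ⟶ M)) := fun g =>
    ptr_tensor _ _ _ (trq_spec hU (τ g))
  have h8 := (Finset.sum_congr rfl fun g _ => h6 g).symm.trans h5
  have h7 : ((∑ g, trq hU N (τ g) • ρ g : End M) : M ⟶ M) =
      ∑ g, trq hU N (τ g) • ((ρ g : End M) : M ⟶ M) := rfl
  rw [h7, wl_sum, Preadditive.comp_sum]
  exact (Finset.sum_congr rfl fun g _ => wl_smul f (trq hU N (τ g)) (ρ g)).trans h8

end

theorem t_ONE : S_ONE.{u, v, w} := by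
  intro C _ _ _ _ _ _ _ _ K _ R hU G _ _ M N P ρ τ j q hP Z
  exact ⟨tw_one hP Z, fun f h => tw_map R j q f h, fun a f h => tw_nat j q a f h,
    fun f h => ⟨fun f' => tw_comp hP f h f', fun h0 => tw_zero hU hP f h h0⟩⟩

end Pool.Agent.K3h96.IQ
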